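import Mathlib

namespace Pool.Agent.H.MP_879d44_al

open scoped Pointwise

/-- freely indecomposable: nontrivial and not a free product of two nontrivial groups -/
def Indec (G : Type) [Group G] : Prop :=
  Nontrivial G ∧ ∀ (A : Bool → Type) [∀ i, Group (A i)],
    Nonempty (G ≃* Monoid.CoprodI A) → ∃ i, Subsingleton (A i)

/-- finite Kurosh rank -/
def FiniteKurosh (G : Type) [Group G] : Prop :=
  ∃ (n : ℕ) (H : Fin n → Type) (_ : ∀ i, Group (H i)),
    (∀ i, Indec (H i)) ∧ Nonempty (G ≃* Monoid.CoprodI H)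

/-- the subsets `A` with `A ∆ A g` finite for every `g` -/
def AI (G : Type) [Group G] : Set (Set G) :=
  {A | ∀ g : G, (symmDiff A ((fun x => x * g) '' A)).Finite}

/-- the Boolean algebra of almost invariant sets modulo finite sets is countable -/
def MetrizablyEnded (G : Type) [Group G] : Prop :=
  Countable (Quot fun A B : AI G => (symmDiff A.1 B.1).Finite)

variable {G : Type} [Group G]

def Inv {β : Type} (χ : G → β) : Subgroup G where
  carrier := {s | ∀ g, χ (g * s) = χ g}
  one_mem' := by intro g; simp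
  mul_mem' := by
    intro s t hs ht g
    rw [← mul_assoc, ht, hs]
  inv_mem' := by
    intro s hs g
    rw [← hs (g * s⁻¹)]; simp

structure Wall (b : G) (χ : G → Bool) : Prop where
  gen : Subgroup.closure ((Inv χ : Set G) ∪ {b}) = ⊤
  hb : ∀ g, g ≠ 1 → χ (g * b) = χ g
  h0 : χ 1 = false
  h1 : χ b = true

def uu (b : G) (σ : Bool) : G := if σ then b else 1

variable {b : G} {χ : G → Bool}

theorem Wall.ind (W : Wall b χ) (p : G → Prop) (h1 : p 1)
    (hs : ∀ g, ∀ s ∈ Inv χ, p g → p (g * s)) (hb : ∀ g, p g ↔ p (g * b)) (g : G) : p g := by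
  have hg : g ∈ Subgroup.closure ((Inv χ : Set G) ∪ {b}) := by rw [W.gen]; trivial
  induction hg using Subgroup.closure_induction_right with
  | one => exact h1
  | mul_right x _ y hy ih =>
    rcases hy with hy | rfl
    · exact hs _ _ hy ih
    · exact (hb _).1 ih
  | mul_inv_cancel x _ y hy ih =>
    rcases hy with hy | rfl
    · exact hs _ _ ((Inv χ).inv_mem hy) ih
    · exact (hb _).2 (by simpa using ih)

theorem Wall.u_self (W : Wall b χ) (σ : Bool) : χ (uu b σ) = σ := by
  cases σ <;> simp [uu, W.h0, W.h1]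

theorem Wall.u_mul (W : Wall b χ) {h : G} (hh : h ≠ 1) (σ : Bool) : χ (h * uu b σ) = χ h := by
  cases σ <;> simp [uu, W.hb h hh]

theorem Wall.nest (W : Wall b χ) {h : G} (hh : h ≠ 1) (g : G) :
    χ g = χ h ∨ χ (h⁻¹ * g) = χ h⁻¹ := by
  have hh' : h⁻¹ ≠ 1 := inv_ne_one.2 hh
  refine W.ind (fun g => χ g = χ h ∨ χ (h⁻¹ * g) = χ h⁻¹) (Or.inr (by simp)) ?_ ?_ g
  · intro g s hs hg
    rw [← mul_assoc, hs, hs]; exact hg
  · intro g
    by_cases h1 : g = 1
    · subst h1
      simp [W.hb _ hh']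
    by_cases h2 : g = h
    · subst h2
      simp [W.hb _ hh]
    have h3 : h⁻¹ * g ≠ 1 := fun h3 => h2 (inv_mul_eq_one.1 h3).symm
    rw [← mul_assoc, W.hb _ h1, W.hb _ h3]

theorem Wall.not_fin (W : Wall b χ) {y : G} (hy : y ≠ 1) (h : χ y⁻¹ = !χ y) :
    ¬ IsOfFinOrder y := by
  intro hf
  have key : ∀ n : ℕ, χ (y⁻¹ ^ (n + 1)) = !χ y := by
    intro n
    induction n with
    | zero => simpa using h
    | succ n ih =>
      rcases W.nest hy (y⁻¹ ^ (n + 1)) with h1 | h1
      · rw [ih] at h1; simp at h1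
      · rw [pow_succ' _ (n + 1), h1, h]
  obtain ⟨n, hn, hn1⟩ := isOfFinOrder_iff_pow_eq_one.1 hf
  obtain ⟨m, rfl⟩ : ∃ m, n = m + 2 := by
    refine ⟨n - 2, ?_⟩
    have : n ≠ 1 := by rintro rfl; exact hy (by simpa using hn1)
    omega
  have h2 : y⁻¹ ^ (m + 1) = y := by
    rw [inv_pow, inv_eq_iff_mul_eq_one, ← pow_succ, hn1]
  have h3 := key m
  rw [h2] at h3
  simp at h3

theorem pingpong (tf : ∀ g : G, g ≠ 1 → ¬ IsOfFinOrder g) (H : Subgroup G) (hH : Indec H)
    (B : Bool → Subgroup G) (hB : ⨆ i, B i = H) (X : Bool → Set G) (hne : ∀ i, (X i).Nonempty)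
    (hdisj : ∀ g, g ∈ X true → g ∈ X false → False)
    (hpp : ∀ i, ∀ h ∈ B i, h ≠ 1 → ∀ g ∈ X (!i), h * g ∈ X i) : ∃ i, B i = ⊥ ∧ B (!i) = H := by
  have key : ∃ i, B i = ⊥ := by
    by_contra hc
    push Not at hc
    obtain ⟨x, hx, hx1⟩ := (B true).bot_or_exists_ne_one.resolve_left (hc true)
    have hinf : Infinite (B true) := by
      have h1 : Infinite (Subgroup.zpowers x) := (infinite_zpowers.2 (tf x hx1)).to_subtype
      exact Infinite.of_injective _ (Subgroup.inclusion_injective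
        ((Subgroup.zpowers_le).2 hx))
    have hinj := Monoid.CoprodI.lift_injective_of_ping_pong (fun i => (B i).subtype)
      (Or.inr ⟨true, (Cardinal.natCast_lt_aleph0 (n := 3)).le.trans
        (Cardinal.infinite_iff.1 hinf)⟩) X hne (by
        intro i j hij
        refine Set.disjoint_left.2 fun g h1 h2 => ?_
        cases i <;> cases j
        · exact hij rfl
        · exact hdisj g h2 h1
        · exact hdisj g h1 h2
        · exact hij rfl) (by
        intro i j hij h hh
        have : j = !i := by cases i <;> cases j <;> simp_all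
        subst this
        rintro _ ⟨g, hg, rfl⟩
        exact hpp i h h.2 (fun h1 => hh (Subtype.ext h1)) g hg)
    have hr : (Monoid.CoprodI.lift (fun i => (B i).subtype)).range = H := by
      rw [Monoid.CoprodI.range_eq_iSup]
      simpa using hB
    obtain ⟨i, hi⟩ := hH.2 (fun i => B i)
      ⟨((MonoidHom.ofInjective hinj).trans (MulEquiv.subgroupCongr hr)).symm⟩
    exact hc i (Subgroup.eq_bot_of_subsingleton _)
  obtain ⟨i, hi⟩ := key
  refine ⟨i, hi, ?_⟩
  rw [← hB, iSup_bool_eq]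
  cases i <;> simp_all

/-- not separated by a translate of the wall -/
def Rel (χ : G → Bool) (H : Subgroup G) (g g' : G) : Prop := ∀ h ∈ H, χ (h * g) = χ (h * g')

theorem Rel.refl (H : Subgroup G) (g : G) : Rel χ H g g := fun _ _ => rfl
theorem Rel.symm {H : Subgroup G} {g g' : G} (h : Rel χ H g g') : Rel χ H g' g :=
  fun k hk => (h k hk).symm
theorem Rel.trans {H : Subgroup G} {g g' g'' : G} (h : Rel χ H g g') (h' : Rel χ H g' g'') :
    Rel χ H g g'' := fun k hk => (h k hk).trans (h' k hk)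
theorem Rel.mul {H : Subgroup G} {g g' k : G} (hk : k ∈ H) (h : Rel χ H g g') :
    Rel χ H (k * g) (k * g') := fun l hl => by
  rw [← mul_assoc, ← mul_assoc]; exact h _ (H.mul_mem hl hk)

def St (χ : G → Bool) (H : Subgroup G) (v : G) : Subgroup G where
  carrier := {h | h ∈ H ∧ Rel χ H (h * v) v}
  one_mem' := ⟨H.one_mem, by simpa using Rel.refl H v⟩
  mul_mem' := by
    rintro s t ⟨hs, hs'⟩ ⟨ht, ht'⟩
    refine ⟨H.mul_mem hs ht, ?_⟩
    rw [mul_assoc]
    exact (ht'.mul hs).trans hs'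
  inv_mem' := by
    rintro s ⟨hs, hs'⟩
    refine ⟨H.inv_mem hs, ?_⟩
    have := (hs'.mul (H.inv_mem hs)).symm
    simpa using this

theorem Wall.gen_sub (W : Wall b χ) (H L : Subgroup G) (hLH : L ≤ H)
    (hL : ∀ h ∈ H, ∀ σ σ', Rel χ H (h * uu b σ) (uu b σ') → h ∈ L) : L = H := by
  have h0 : ∀ h ∈ H, ∀ σ, (∃ l ∈ L, ∃ σ', Rel χ H (h * uu b σ) (l * uu b σ')) → h ∈ L := by
    rintro h hh σ ⟨l, hl, σ', hr⟩
    have h1 := hr.mul (H.inv_mem (hLH hl))
    rw [inv_mul_cancel_left, ← mul_assoc] at h1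
    have h2 := L.mul_mem hl (hL _ (H.mul_mem (H.inv_mem (hLH hl)) hh) _ _ h1)
    simpa using h2
  have key : ∀ g, ∃ l ∈ L, ∃ σ, Rel χ H g (l * uu b σ) := by
    refine W.ind _ ⟨1, L.one_mem, false, by simpa [uu] using Rel.refl H 1⟩ ?_ ?_
    · rintro g s hs ⟨l, hl, σ, hr⟩
      refine ⟨l, hl, σ, Rel.trans (fun h _ => ?_) hr⟩
      rw [← mul_assoc, hs]
    · intro g
      by_cases hg : g ∈ H
      · constructor
        · intro h1
          exact ⟨g, h0 g hg false (by simpa [uu] using h1), true, by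
            simpa [uu] using Rel.refl H _⟩
        · intro h1
          exact ⟨g, h0 g hg true (by simpa [uu] using h1), false, by
            simpa [uu] using Rel.refl H _⟩
      · have h1 : Rel χ H (g * b) g := by
          intro h hh
          rw [← mul_assoc]
          refine W.hb _ fun h2 => hg ?_
          rw [eq_inv_of_mul_eq_one_right h2]
          exact H.inv_mem hh
        constructor
        · rintro ⟨l, hl, σ, hr⟩
          exact ⟨l, hl, σ, h1.trans hr⟩
        · rintro ⟨l, hl, σ, hr⟩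
          exact ⟨l, hl, σ, h1.symm.trans hr⟩
  exact le_antisymm hLH fun h hh => h0 h hh false (key _)

/-- two distinct walls adjacent to the same class have disjoint far sides -/
theorem Wall.far (W : Wall b χ) {H : Subgroup G} {h1 h2 : G} (m1 : h1 ∈ H) (m2 : h2 ∈ H)
    (hne : h1 ≠ h2) {σ1 σ2 : Bool} (hr : Rel χ H (h1 * uu b σ1) (h2 * uu b σ2)) (g : G) :
    χ (h1⁻¹ * g) = σ1 ∨ χ (h2⁻¹ * g) = σ2 := by
  have hh : h1⁻¹ * h2 ≠ 1 := fun h => hne (inv_mul_eq_one.1 h)
  have e1 := hr _ (H.inv_mem m1)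
  rw [inv_mul_cancel_left, ← mul_assoc, W.u_mul hh, W.u_self] at e1
  have e2 := hr _ (H.inv_mem m2)
  have hh' : h2⁻¹ * h1 ≠ 1 := fun h => hne (inv_mul_eq_one.1 h).symm
  rw [inv_mul_cancel_left, ← mul_assoc, W.u_mul hh', W.u_self] at e2
  have h3 := W.nest hh (h1⁻¹ * g)
  rw [← e1, mul_inv_rev, inv_inv, e2, mul_assoc, mul_inv_cancel_left] at h3
  exact h3

theorem Wall.small (W : Wall b χ) (tf : ∀ g : G, g ≠ 1 → ¬ IsOfFinOrder g) (H : Subgroup G)
    (hH : Indec H) (hc : ∀ τ, Subgroup.zpowers τ ≠ H) :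
    ∃ σ, ∀ h ∈ H, h ≠ 1 → ∀ g, χ g = σ ∨ χ (h⁻¹ * g) = σ := by
  have hA : ∀ σ, ∀ h ∈ St χ H (uu b σ), h ≠ 1 → ∀ g, χ g = σ ∨ χ (h⁻¹ * g) = σ := by
    intro σ h hh h1 g
    have := W.far H.one_mem hh.1 (Ne.symm h1) (σ1 := σ) (σ2 := σ)
      (by simpa using hh.2.symm) g
    simpa using this
  by_cases hloop : ∃ τ ∈ H, Rel χ H (τ * b) 1
  · exfalso
    obtain ⟨τ, hτ, hr⟩ := hloop
    have hτ1 : τ ≠ 1 := by
      rintro rfl
      have := hr 1 H.one_mem
      simp [W.h0, W.h1] at this
    have hτA : τ ∉ St χ H 1 := by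
      intro h
      have h1 := (hr.trans h.2.symm) _ (H.inv_mem hτ)
      simp [W.h0, W.h1] at h1
    have hr' : Rel χ H (τ * uu b true) (1 * uu b false) := by simpa [uu] using hr
    have hmono : ∀ g, χ g = true → χ (τ⁻¹ * g) = true := by
      intro g hg
      have := W.far hτ H.one_mem hτ1 hr' g
      simpa [hg] using this
    have hmono' : ∀ g, χ g = false → χ (τ * g) = false := by
      intro g hg
      by_contra h1
      have := hmono (τ * g) (by simpa using h1)
      simp [hg] at this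
    have hp1 : ∀ n : ℕ, ∀ g, χ g = false → χ (τ ^ n * g) = false := by
      intro n
      induction n with
      | zero => simp
      | succ n ih => intro g hg; rw [pow_succ', mul_assoc]; exact hmono' _ (ih g hg)
    have hp2 : ∀ n : ℕ, ∀ g, χ g = true → χ (τ⁻¹ ^ n * g) = true := by
      intro n
      induction n with
      | zero => simp
      | succ n ih => intro g hg; rw [pow_succ', mul_assoc]; exact hmono _ (ih g hg)
    let B : Bool → Subgroup G := fun i => if i then Subgroup.zpowers τ else St χ H 1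
    have hB : ⨆ i, B i = H := by
      have m1 : τ ∈ ⨆ i, B i := Subgroup.mem_iSup_of_mem true (Subgroup.mem_zpowers τ)
      have m2 : ∀ h ∈ H, Rel χ H h 1 → h ∈ ⨆ i, B i := fun h hh h1 =>
        Subgroup.mem_iSup_of_mem false ⟨hh, by simpa using h1⟩
      refine W.gen_sub H _ (iSup_le fun i => ?_) ?_
      · cases i
        · exact fun h hh => hh.1
        · exact (Subgroup.zpowers_le).2 hτ
      · intro h hh σ σ' h1
        have m3 : ∀ k ∈ H, Rel χ H (k * b) 1 → k ∈ ⨆ i, B i := by
          intro k hk h2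
          have h3 := (hr.mul (H.mul_mem hk (H.inv_mem hτ))).symm
          rw [mul_one, ← mul_assoc, inv_mul_cancel_right] at h3
          have h4 := Subgroup.mul_mem _ (m2 _ (H.mul_mem hk (H.inv_mem hτ)) (h3.trans h2)) m1
          simpa using h4
        cases σ <;> cases σ' <;> simp only [uu, if_true, Bool.false_eq_true, if_false,
          mul_one] at h1
        · exact m2 h hh h1
        · have h4 := Subgroup.mul_mem _ (Subgroup.inv_mem _ m1)
            (m2 _ (H.mul_mem hτ hh) ((h1.mul hτ).trans hr))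
          simpa using h4
        · exact m3 h hh h1
        · have h3 := (h1.mul hτ).trans hr
          rw [← mul_assoc] at h3
          have h4 := Subgroup.mul_mem _ (Subgroup.inv_mem _ m1) (m3 _ (H.mul_mem hτ hh) h3)
          simpa using h4
    let X : Bool → Set G := fun i =>
      if i then {g | χ g = true ∨ χ (τ⁻¹ * g) = false} else {g | χ g = false ∧ χ (τ⁻¹ * g) = true}
    obtain ⟨i, hi1, hi2⟩ := pingpong tf H hH B hB X (by
        intro i
        cases i
        · refine ⟨τ * b, ?_, by simp [W.h1]⟩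
          simpa [W.h0] using hr 1 H.one_mem
        · exact ⟨b, Or.inl W.h1⟩) (by
        rintro g (h1 | h1) ⟨h2, h3⟩
        · rw [h1] at h2; simp at h2
        · rw [h1] at h3; simp at h3) (by
        intro i h hh h1 g hg
        cases i
        · have hh' : h ∈ St χ H 1 := hh
          have r1 : Rel χ H (h * uu b false) 1 := by simpa [uu] using hh'.2
          have r2 : Rel χ H (h * τ * uu b true) 1 := by
            have := (hr.mul hh'.1).trans hh'.2
            simpa [uu, mul_assoc] using this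
          have r3 : Rel χ H (1 * uu b false) 1 := by simpa [uu] using Rel.refl H 1
          have r4 : Rel χ H (τ * uu b true) 1 := by simpa [uu] using hr
          have mτ := H.mul_mem hh'.1 hτ
          have n1 : h ≠ τ := fun e => hτA (e ▸ hh')
          have n2 : h * τ ≠ 1 := fun e => hτA (by
            rw [eq_inv_of_mul_eq_one_right e]; exact Subgroup.inv_mem _ hh')
          have n3 : h * τ ≠ τ := fun e => h1 (mul_eq_right.1 e)
          have f1 := W.far hh'.1 H.one_mem h1 (r1.trans r3.symm) (h * g)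
          have f2 := W.far hh'.1 hτ n1 (r1.trans r4.symm) (h * g)
          have f3 := W.far mτ H.one_mem n2 (r2.trans r3.symm) (h * g)
          have f4 := W.far mτ hτ n3 (r2.trans r4.symm) (h * g)
          simp only [inv_mul_cancel_left, inv_one, one_mul, mul_inv_rev, mul_assoc] at f1 f2 f3 f4
          have hg' : χ g = true ∨ χ (τ⁻¹ * g) = false := hg
          show χ (h * g) = false ∧ χ (τ⁻¹ * (h * g)) = true
          rcases hg' with e | e <;> simp_all
        · have hh' : h ∈ Subgroup.zpowers τ := hh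
          have hg' : χ g = false ∧ χ (τ⁻¹ * g) = true := hg
          show χ (h * g) = true ∨ χ (τ⁻¹ * (h * g)) = false
          obtain ⟨n, rfl⟩ := Subgroup.mem_zpowers_iff.1 hh'
          rcases n with n | n
          · rcases n with _ | n
            · simp at h1
            · right
              have := hp1 n g hg'.1
              rw [Int.ofNat_eq_natCast, zpow_natCast, pow_succ', mul_assoc, inv_mul_cancel_left]
              exact this
          · left
            have := hp2 n _ hg'.2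
            rw [← mul_assoc, ← pow_succ, inv_pow] at this
            simpa using this)
    cases i
    · exact hc τ hi2
    · exact hτ1 (Subgroup.zpowers_eq_bot.1 hi1)
  · push Not at hloop
    let B : Bool → Subgroup G := fun i => St χ H (uu b i)
    have hB : ⨆ i, B i = H := by
      refine W.gen_sub H _ (iSup_le fun i h hh => hh.1) ?_
      intro h hh σ σ' h1
      by_cases e : σ = σ'
      · subst e; exact Subgroup.mem_iSup_of_mem σ ⟨hh, h1⟩
      · exfalso
        cases σ <;> cases σ' <;> simp only [uu, if_true, Bool.false_eq_true, if_false,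
          mul_one] at h1
        · exact e rfl
        · refine hloop h⁻¹ (H.inv_mem hh) ?_
          simpa using (h1.mul (H.inv_mem hh)).symm
        · exact hloop h hh h1
        · exact e rfl
    obtain ⟨i, -, hi2⟩ := pingpong tf H hH B hB (fun i => {g | χ g = i})
      (fun i => ⟨uu b i, W.u_self i⟩) (fun g h1 h2 => by
        have h3 : χ g = true := h1
        have h4 : χ g = false := h2
        rw [h3] at h4; simp at h4) (by
        intro i h hh h1 g hg
        have h2 := hA i h hh h1 (h * g)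
        have h3 : χ g = !i := hg
        rw [inv_mul_cancel_left, h3] at h2
        simpa using h2)
    exact ⟨!i, fun h hh => hA (!i) h (by rw [← hi2] at hh; exact hh)⟩

/-- paths with a given number of steps along the letters `b j` -/
inductive Pth {J : Type} (K : Subgroup G) (b : J → G) (g : G) : ℕ → G → Prop
  | refl : Pth K b g 0 g
  | k {m h} (s : G) : s ∈ K → Pth K b g m h → Pth K b g m (h * s)
  | up {m h} (j : J) : Pth K b g m h → Pth K b g (m + 1) (h * b j)
  | down {m h} (j : J) : Pth K b g m (h * b j) → Pth K b g (m + 1) h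

section Paths
variable {J : Type} {K : Subgroup G} {c : J → G}

theorem Pth.trans {g h k : G} {m n : ℕ} (p : Pth K c g m h) (q : Pth K c h n k) :
    Pth K c g (m + n) k := by
  induction q with
  | refl => exact p
  | k s hs _ ih => exact ih.k s hs
  | up j _ ih => exact ih.up j
  | down j _ ih => exact ih.down j

theorem Pth.mul {g h : G} {m : ℕ} (x : G) (p : Pth K c g m h) : Pth K c (x * g) m (x * h) := by
  induction p with
  | refl => exact Pth.refl
  | k s hs _ ih => rw [← mul_assoc]; exact ih.k s hs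
  | up j _ ih => rw [← mul_assoc]; exact ih.up j
  | down j _ ih => rw [← mul_assoc] at ih; exact ih.down j

theorem Pth.first {g h : G} {m : ℕ} (p : Pth K c g m h) :
    (m = 0 ∧ g⁻¹ * h ∈ K) ∨ ∃ j t σ n, m = n + 1 ∧ Pth K c g 0 (t * uu (c j) (!σ)) ∧
      Pth K c (t * uu (c j) σ) n h := by
  have aux : ∀ {h : G}, g⁻¹ * h ∈ K → Pth K c g 0 h := fun {h} hh => by
    simpa using (Pth.refl (K := K) (b := c) (g := g)).k _ hh
  induction p with
  | refl => exact Or.inl ⟨rfl, by simp⟩
  | k s hs _ ih =>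
    rcases ih with ⟨h1, h2⟩ | ⟨j, t, σ, n, h1, h2, h3⟩
    · exact Or.inl ⟨h1, by rw [← mul_assoc]; exact K.mul_mem h2 hs⟩
    · exact Or.inr ⟨j, t, σ, n, h1, h2, h3.k s hs⟩
  | @up m h i _ ih =>
    rcases ih with ⟨h1, h2⟩ | ⟨j, t, σ, n, h1, h2, h3⟩
    · exact Or.inr ⟨i, h, true, 0, by omega, by simpa [uu] using aux h2,
        by simpa [uu] using Pth.refl⟩
    · exact Or.inr ⟨j, t, σ, n + 1, by omega, h2, h3.up i⟩
  | @down m h i _ ih =>
    rcases ih with ⟨h1, h2⟩ | ⟨j, t, σ, n, h1, h2, h3⟩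
    · exact Or.inr ⟨i, h, false, 0, by omega, by simpa [uu] using aux h2,
        by simpa [uu] using Pth.refl⟩
    · exact Or.inr ⟨j, t, σ, n + 1, by omega, h2, h3.down i⟩

theorem Pth.cross {j : J} (W : Wall (c j) χ) (hK : K ≤ Inv χ) (hc : ∀ i, i ≠ j → c i ∈ Inv χ)
    (t : G) {g h : G} {m : ℕ} (p : Pth K c g m h) (hne : χ (t⁻¹ * h) ≠ χ (t⁻¹ * g)) :
    ∃ m1 m2, m1 + m2 + 1 = m ∧ Pth K c g m1 (t * uu (c j) (χ (t⁻¹ * g))) ∧
      Pth K c (t * uu (c j) (!χ (t⁻¹ * g))) m2 h := by
  have step : ∀ (i : J) (h : G), χ (t⁻¹ * (h * c i)) ≠ χ (t⁻¹ * h) → i = j ∧ h = t := by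
    intro i h h1
    rw [← mul_assoc] at h1
    by_cases e : i = j
    · subst e
      refine ⟨rfl, ?_⟩
      by_contra h2
      exact h1 (W.hb _ fun h3 => h2 (inv_mul_eq_one.1 h3).symm)
    · exact absurd (hc i e _) h1
  induction p with
  | refl => exact absurd rfl hne
  | k s hs _ ih =>
    rw [← mul_assoc, hK hs] at hne
    obtain ⟨m1, m2, h1, h2, h3⟩ := ih hne
    exact ⟨m1, m2, h1, h2, h3.k s hs⟩
  | @up m h i p ih =>
    by_cases e : χ (t⁻¹ * h) = χ (t⁻¹ * g)
    · obtain ⟨rfl, rfl⟩ := step i h (by rw [e]; exact hne)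
      rw [← e]
      exact ⟨m, 0, rfl, by simpa [uu, W.h0] using p, by simpa [uu, W.h0] using Pth.refl⟩
    · obtain ⟨m1, m2, h1, h2, h3⟩ := ih e
      exact ⟨m1, m2 + 1, by omega, h2, h3.up i⟩
  | @down m h i p ih =>
    by_cases e : χ (t⁻¹ * (h * c i)) = χ (t⁻¹ * g)
    · obtain ⟨rfl, rfl⟩ := step i h (by rw [e]; exact hne.symm)
      rw [← e]
      exact ⟨m, 0, rfl, by simpa [uu, W.h1] using p, by simpa [uu, W.h1] using Pth.refl⟩
    · obtain ⟨m1, m2, h1, h2, h3⟩ := ih e
      exact ⟨m1, m2 + 1, by omega, h2, h3.down i⟩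

theorem cyc {χ : J → G → Bool} (W : ∀ j, Wall (c j) (χ j)) (hK : ∀ j, K ≤ Inv (χ j))
    (hc : ∀ j i, i ≠ j → c i ∈ Inv (χ j))
    (gen : Subgroup.closure ((K : Set G) ∪ Set.range c) = ⊤) (x : G) :
    (∃ v, v⁻¹ * x * v ∈ K) ∨ ∃ j t, t⁻¹ * x * t ≠ 1 ∧
      χ j (t⁻¹ * x * t)⁻¹ = !χ j (t⁻¹ * x * t) := by
  classical
  have conn : ∀ g, ∃ m, Pth K c 1 m g := by
    intro g
    have hg : g ∈ Subgroup.closure ((K : Set G) ∪ Set.range c) := by rw [gen]; trivial
    induction hg using Subgroup.closure_induction_right with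
    | one => exact ⟨0, Pth.refl⟩
    | mul_right x _ y hy ih =>
      obtain ⟨m, p⟩ := ih
      rcases hy with hy | ⟨j, rfl⟩
      · exact ⟨m, p.k _ hy⟩
      · exact ⟨m + 1, p.up j⟩
    | mul_inv_cancel x _ y hy ih =>
      obtain ⟨m, p⟩ := ih
      rcases hy with hy | ⟨j, rfl⟩
      · exact ⟨m, p.k _ (K.inv_mem hy)⟩
      · exact ⟨m + 1, Pth.down j (by simpa using p)⟩
  have hex : ∃ m, ∃ v, Pth K c v m (x * v) := by
    obtain ⟨m, p⟩ := conn x
    exact ⟨m, 1, by simpa using p⟩
  obtain ⟨v, p⟩ := Nat.find_spec hex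
  have hmin : ∀ n < Nat.find hex, ∀ v, ¬ Pth K c v n (x * v) := fun n hn v hv =>
    Nat.find_min hex hn ⟨v, hv⟩
  rcases p.first with ⟨-, h2⟩ | ⟨j, t, σ, n, h1, h2, h3⟩
  · exact Or.inl ⟨v, by rwa [mul_assoc]⟩
  right
  have q : Pth K c (t * uu (c j) σ) n (x * (t * uu (c j) (!σ))) := h3.trans (h2.mul x)
  have e1 : χ j (t⁻¹ * (x * (t * uu (c j) (!σ)))) = σ := by
    by_contra hne
    obtain ⟨m1, m2, a1, -, a3⟩ := q.cross (W j) (hK j) (hc j) t
      (by rw [inv_mul_cancel_left, (W j).u_self]; exact hne)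
    rw [inv_mul_cancel_left, (W j).u_self] at a3
    exact hmin m2 (by omega) _ a3
  have e2 : χ j ((x * t)⁻¹ * (t * uu (c j) σ)) = !σ := by
    by_contra hne
    have e3 : χ j ((x * t)⁻¹ * (x * (t * uu (c j) (!σ)))) = !σ := by
      rw [← mul_assoc x, inv_mul_cancel_left, (W j).u_self]
    obtain ⟨m1, m2, a1, a2, -⟩ := q.cross (W j) (hK j) (hc j) (x * t)
      (by rw [e3]; exact fun h => hne h.symm)
    have e4 : χ j ((x * t)⁻¹ * (t * uu (c j) σ)) = σ := by
      revert hne; cases χ j ((x * t)⁻¹ * (t * uu (c j) σ)) <;> cases σ <;> simp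
    rw [e4, mul_assoc] at a2
    exact hmin m1 (by omega) _ a2
  have hy : t⁻¹ * x * t ≠ 1 := by
    intro hy
    rw [← mul_assoc, ← mul_assoc, hy, one_mul, (W j).u_self] at e1
    simp at e1
  refine ⟨j, t, hy, ?_⟩
  rw [← mul_assoc, ← mul_assoc, (W j).u_mul hy] at e1
  have e5 : (x * t)⁻¹ * (t * uu (c j) σ) = (t⁻¹ * x * t)⁻¹ * uu (c j) σ := by group
  rw [e5, (W j).u_mul (inv_ne_one.2 hy)] at e2
  rw [e1, e2]

end Paths

end Pool.Agent.H.MP_879d44_al
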