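import Pool.Agent.H.MP_879d44_al.A

namespace Pool.Agent.H.MP_879d44_al

open Filter

def rels : Set (FreeGroup (ℕ ⊕ ℕ)) :=
  Set.range fun n : ℕ => (FreeGroup.of (Sum.inl n))⁻¹ *
    (FreeGroup.of (Sum.inl (n + 1)) ^ 2 * FreeGroup.of (Sum.inr n) ^ 2)

abbrev Γ : Type := PresentedGroup rels

def a (n : ℕ) : Γ := PresentedGroup.of (Sum.inl n)
def b (n : ℕ) : Γ := PresentedGroup.of (Sum.inr n)

instance : Countable Γ := (PresentedGroup.mk_surjective rels).countable

theorem rel (n : ℕ) : a n = a (n + 1) ^ 2 * b n ^ 2 := by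
  have h := PresentedGroup.one_of_mem (rels := rels) ⟨n, rfl⟩
  simp only [map_mul, map_inv, map_pow] at h
  exact inv_mul_eq_one.1 h

theorem hom {L : Type} [Group L] (α β : ℕ → L) (h : ∀ n, α n = α (n + 1) ^ 2 * β n ^ 2) :
    ∃ θ : Γ →* L, (∀ m, θ (a m) = α m) ∧ ∀ m, θ (b m) = β m := by
  have h1 : ∀ r ∈ rels, FreeGroup.lift (Sum.elim α β) r = 1 := by
    rintro _ ⟨n, rfl⟩
    simp only [map_mul, map_inv, map_pow, FreeGroup.lift_apply_of, Sum.elim_inl, Sum.elim_inr]
    rw [← h n, inv_mul_cancel]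
  exact ⟨PresentedGroup.toGroup h1, fun m => PresentedGroup.toGroup.of h1,
    fun m => PresentedGroup.toGroup.of h1⟩

theorem ext_hom {L : Type} [Group L] (n : ℕ) (α β : ℕ → L)
    (h : ∀ m, n ≤ m → α m = α (m + 1) ^ 2 * β m ^ 2) :
    ∃ θ : Γ →* L, (∀ m, n ≤ m → θ (a m) = α m) ∧ ∀ m, θ (b m) = β m := by
  let A : ℕ → L := fun d => Nat.rec (α n) (fun d x => x ^ 2 * β (n - d - 1) ^ 2) d
  have A0 : A 0 = α n := rfl
  have A1 : ∀ d, A (d + 1) = A d ^ 2 * β (n - d - 1) ^ 2 := fun _ => rfl
  obtain ⟨θ, h1, h2⟩ := hom (fun m => if n ≤ m then α m else A (n - m)) β (by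
    intro m
    by_cases hm : n ≤ m
    · rw [if_pos hm, if_pos (by omega)]; exact h m hm
    · rw [if_neg hm, show n - m = (n - (m + 1)) + 1 by omega, A1,
        show n - (n - (m + 1)) - 1 = m by omega]
      split_ifs with h3
      · rw [show n - (m + 1) = 0 by omega, A0, show n = m + 1 by omega]
      · rfl)
  exact ⟨θ, fun m hm => by rw [h1, if_pos hm], h2⟩

theorem gen (L : Subgroup Γ) (n : ℕ) (ha : ∀ m, n ≤ m → a m ∈ L) (hb : ∀ m, b m ∈ L) (g : Γ) :
    g ∈ L := by
  have h1 : ∀ d m, n ≤ m + d → a m ∈ L := by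
    intro d
    induction d with
    | zero => exact ha
    | succ d ih =>
      intro m hm
      rw [rel]
      exact L.mul_mem (L.pow_mem (ih _ (by omega)) _) (L.pow_mem (hb _) _)
  refine PresentedGroup.generated_by rels L ?_ g
  rintro (m | m)
  · exact h1 n m (by omega)
  · exact hb m

theorem exists_wall (j : ℕ) : ∃ χ : Γ → Bool, Wall (b j) χ ∧ (∀ m, j < m → a m ∈ Inv χ) ∧
    ∀ m, m ≠ j → b m ∈ Inv χ := by
  classical
  let R : Γ →* Equiv.Perm (Γ × Bool) :=
    { toFun := fun s => Equiv.prodCongr (Equiv.mulRight s⁻¹) (Equiv.refl _)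
      map_one' := by ext p <;> simp
      map_mul' := by intro s t; ext p <;> simp [mul_assoc] }
  have hR : ∀ s p, R s p = (p.1 * s⁻¹, p.2) := fun _ _ => rfl
  let F : Equiv.Perm (Γ × Bool) := Function.Involutive.toPerm
    (fun p => (p.1, if p.1 = 1 then !p.2 else p.2)) (by
      rintro ⟨g, e⟩
      by_cases h : g = 1 <;> simp [h])
  have hF : ∀ p, F p = (p.1, if p.1 = 1 then !p.2 else p.2) := fun _ => rfl
  obtain ⟨θ, h1, h2⟩ := ext_hom (j + 1) (fun m => R (a m))
    (fun m => if m = j then F * R (b j) else R (b m)) (by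
      intro m hm
      rw [if_neg (by omega), ← map_pow, ← map_pow, ← map_mul, ← rel])
  let L : Subgroup Γ :=
    { carrier := {s | ∀ p, (θ s p).1 = p.1 * s⁻¹}
      one_mem' := by intro p; simp
      mul_mem' := by
        intro s t hs ht p
        rw [map_mul, Equiv.Perm.mul_apply, hs, ht]; group
      inv_mem' := by
        intro s hs p
        have := hs (θ s⁻¹ p)
        rw [← Equiv.Perm.mul_apply, ← map_mul, mul_inv_cancel, map_one,
          Equiv.Perm.one_apply] at this
        rw [this]; group }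
  have hL : ∀ s p, (θ s p).1 = p.1 * s⁻¹ := fun s => gen L (j + 1)
    (fun m hm p => by rw [h1 m hm, hR]) (fun m p => by
      rw [h2]
      split_ifs with h
      · subst h; rw [Equiv.Perm.mul_apply, hF, hR]
      · rw [hR]) s
  let χ : Γ → Bool := fun g => (θ g⁻¹ (1, false)).2
  have hχ : ∀ g, θ g⁻¹ (1, false) = (g, χ g) := fun g => Prod.ext (by rw [hL]; simp) rfl
  have hinv : ∀ s, θ s = R s → s ∈ Inv χ := by
    intro s hs g
    show (θ (g * s)⁻¹ (1, false)).2 = χ g
    rw [mul_inv_rev, map_mul, Equiv.Perm.mul_apply, hχ, map_inv, hs, ← map_inv, hR]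
  have ha : ∀ m, j < m → a m ∈ Inv χ := fun m hm => hinv _ (h1 m hm)
  have hb : ∀ m, m ≠ j → b m ∈ Inv χ := fun m hm => hinv _ (by rw [h2, if_neg hm])
  have hj : ∀ g, χ g = if g = 1 then !χ (g * b j) else χ (g * b j) := by
    intro g
    have h3 : θ (b j) (θ (g * b j)⁻¹ (1, false)) = θ g⁻¹ (1, false) := by
      rw [← Equiv.Perm.mul_apply, ← map_mul]; congr 2; group
    rw [hχ, hχ, h2, if_pos rfl, Equiv.Perm.mul_apply, hR, hF] at h3
    have h4 := congrArg Prod.snd h3
    simpa using h4.symm
  have h0 : χ 1 = false := by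
    show (θ (1 : Γ)⁻¹ (1, false)).2 = false
    rw [inv_one, map_one]; rfl
  refine ⟨χ, ⟨?_, fun g hg => ?_, h0, ?_⟩, ha, hb⟩
  · refine eq_top_iff.2 fun g _ => gen _ (j + 1)
      (fun m hm => Subgroup.subset_closure (Or.inl (ha m hm))) (fun m => ?_) g
    by_cases h : m = j
    · exact Subgroup.subset_closure (Or.inr (by rw [h]; rfl))
    · exact Subgroup.subset_closure (Or.inl (hb m h))
  · rw [hj g, if_neg hg]
  · have := hj 1
    rw [h0] at this
    simpa using this

def KK (n : ℕ) : Subgroup Γ := Subgroup.closure ({g | ∃ m, n < m ∧ (g = a m ∨ g = b m)})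

theorem exists_rho : ∃ ρ : ℕ → Γ →* Γ, (∀ n, ∀ g ∈ KK n, ρ n g = g) ∧
    ∀ g, ∀ᶠ n in atTop, ρ n g = 1 := by
  have h : ∀ n, ∃ θ : Γ →* Γ, (∀ m, θ (a m) = if n < m then a m else 1) ∧
      ∀ m, θ (b m) = if n < m then b m else if n = m then (a (n + 1))⁻¹ else 1 := by
    intro n
    refine hom _ _ fun m => ?_
    rcases lt_trichotomy n m with h | h | h
    · rw [if_pos h, if_pos h, if_pos (by omega), ← rel]
    · subst h; simp
    · rw [if_neg (by omega), if_neg (by omega), if_neg (by omega), if_neg (by omega)]; simp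
  choose ρ h1 h2 using h
  refine ⟨ρ, fun n g hg => ?_, fun g => ?_⟩
  · have : KK n ≤ MonoidHom.eqLocus (ρ n) (MonoidHom.id Γ) := by
      refine (Subgroup.closure_le _).2 ?_
      rintro _ ⟨m, hm, rfl | rfl⟩
      · show ρ n (a m) = a m
        rw [h1, if_pos hm]
      · show ρ n (b m) = b m
        rw [h2, if_pos hm]
    exact this hg
  · let L : Subgroup Γ :=
      { carrier := {s | ∀ᶠ n in atTop, ρ n s = 1}
        one_mem' := Eventually.of_forall fun n => map_one _
        mul_mem' := by
          intro s t hs ht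
          filter_upwards [hs, ht] with n h1 h2
          rw [map_mul, h1, h2, one_mul]
        inv_mem' := by
          intro s hs
          filter_upwards [hs] with n h1
          rw [map_inv, h1, inv_one] }
    refine gen L 0 (fun m _ => ?_) (fun m => ?_) g
    · filter_upwards [eventually_gt_atTop m] with n hn
      rw [h1, if_neg (by omega)]
    · filter_upwards [eventually_gt_atTop m] with n hn
      rw [h2, if_neg (by omega), if_neg (by omega)]

theorem cycΓ {x : Γ} (hx : x ≠ 1) : ∃ (j : ℕ) (χ : Γ → Bool) (t : Γ), Wall (b j) χ ∧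
    t⁻¹ * x * t ≠ 1 ∧ χ (t⁻¹ * x * t)⁻¹ = !χ (t⁻¹ * x * t) := by
  choose χ W ha hb using exists_wall
  obtain ⟨ρ, r1, r2⟩ := exists_rho
  obtain ⟨n, hn⟩ := (r2 x).exists
  rcases cyc (J := {j // j ≤ n}) (K := KK n) (c := fun j => b j.1) (χ := fun j => χ j.1)
    (fun j => W j.1) (fun j => (Subgroup.closure_le _).2 (by
      rintro _ ⟨m, hm, rfl | rfl⟩
      · exact ha _ _ (by omega)
      · exact hb _ _ (by omega)))
    (fun j i hij => hb _ _ fun h => hij (Subtype.ext h)) (by
      refine eq_top_iff.2 fun g _ => gen _ (n + 1) (fun m hm => Subgroup.subset_closure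
        (Or.inl (show a m ∈ KK n from Subgroup.subset_closure ⟨m, hm, Or.inl rfl⟩)))
        (fun m => ?_) g
      by_cases h : m ≤ n
      · exact Subgroup.subset_closure (Or.inr ⟨(⟨m, h⟩ : {j // j ≤ n}), rfl⟩)
      · exact Subgroup.subset_closure
          (Or.inl (show b m ∈ KK n from
            Subgroup.subset_closure ⟨m, by omega, Or.inr rfl⟩))) x with ⟨v, hv⟩ | ⟨j, t, h⟩
  · exfalso
    have h1 := r1 n _ hv
    rw [map_mul, map_mul, hn, map_inv, mul_one, inv_mul_cancel] at h1
    apply hx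
    have : x = v * (v⁻¹ * x * v) * v⁻¹ := by group
    rw [this, ← h1]; simp
  · exact ⟨j.1, χ j.1, t, W j.1, h⟩

theorem tf (x : Γ) (hx : x ≠ 1) : ¬ IsOfFinOrder x := by
  obtain ⟨j, χ, t, W, h1, h2⟩ := cycΓ hx
  intro hf
  refine W.not_fin h1 h2 ?_
  have := (MulAut.conj t⁻¹).toMonoidHom.isOfFinOrder hf
  simpa using this

theorem Indec.of_equiv {G H : Type} [Group G] [Group H] (e : G ≃* H) (h : Indec G) : Indec H :=
  ⟨by have := h.1; exact e.symm.surjective.nontrivial,
    fun A _ ⟨f⟩ => h.2 A ⟨e.trans f⟩⟩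

theorem cyclic (H : Subgroup Γ) (hH : Indec H) : ∃ τ, Subgroup.zpowers τ = H := by
  by_contra hc
  push Not at hc
  have := hH.1
  obtain ⟨x, hx⟩ := exists_ne (1 : H)
  obtain ⟨j, χ, t, W, h1, h2⟩ := cycΓ (x := x.1) fun h => hx (Subtype.ext h)
  let e : Γ ≃* Γ := MulAut.conj t⁻¹
  obtain ⟨σ, hσ⟩ := W.small tf (H.map (e : Γ →* Γ)) (hH.of_equiv (e.subgroupMap H)) (by
    intro τ hτ
    refine hc (e.symm τ) (Subgroup.map_injective (f := (e : Γ →* Γ)) e.injective ?_)
    rw [← hτ, MonoidHom.map_zpowers]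
    simp)
  have hm : t⁻¹ * x.1 * t ∈ H.map (e : Γ →* Γ) := ⟨x.1, x.2, by simp [e]⟩
  set y := t⁻¹ * x.1 * t
  have h3 := hσ y hm h1 (y * uu (b j) (χ y))
  rw [inv_mul_cancel_left, W.u_mul h1, W.u_self, or_self] at h3
  have h4 := hσ y hm h1 (uu (b j) (!χ y))
  rw [W.u_mul (inv_ne_one.2 h1), W.u_self, h2, or_self, h3] at h4
  simp at h4

theorem a_ne (n : ℕ) : a n ≠ 1 := by
  obtain ⟨θ, h1, -⟩ := ext_hom (L := Multiplicative ℤ) n
    (fun m => if m = n then Multiplicative.ofAdd 2 else 1)
    (fun m => if m = n then Multiplicative.ofAdd 1 else 1) (by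
      intro m hm
      by_cases h : m = n
      · rw [if_pos h, if_pos h, if_neg (by omega)]; rfl
      · rw [if_neg h, if_neg h, if_neg (by omega)]; rfl)
  intro h
  have := h1 n le_rfl
  rw [h, map_one, if_pos rfl] at this
  exact absurd this (by decide)

theorem not_fk : ¬ FiniteKurosh Γ := by
  rintro ⟨k, H, _, hH, ⟨e⟩⟩
  let f : ∀ i, H i →* Γ := fun i => (e.symm : Monoid.CoprodI H →* Γ).comp Monoid.CoprodI.of
  have hf : ∀ i, Function.Injective (f i) := fun i =>
    e.symm.injective.comp (Monoid.CoprodI.of_injective i)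
  choose τ hτ using fun i => cyclic (f i).range ((hH i).of_equiv (MonoidHom.ofInjective (hf i)))
  obtain ⟨ρ, r1, r2⟩ := exists_rho
  obtain ⟨n, hn⟩ := (eventually_all.2 fun i => r2 (τ i)).exists
  have h1 : ∀ w : Monoid.CoprodI H, ρ n (e.symm w) = 1 := by
    intro w
    induction w using Monoid.CoprodI.induction_on with
    | one => simp
    | of i x =>
      have h2 : f i x ∈ Subgroup.zpowers (τ i) := by rw [hτ]; exact ⟨x, rfl⟩
      obtain ⟨m, hm⟩ := Subgroup.mem_zpowers_iff.1 h2
      show ρ n (f i x) = 1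
      rw [← hm, map_zpow, hn, one_zpow]
    | mul x y hx hy => rw [map_mul, map_mul, hx, hy, one_mul]
  have h2 := h1 (e (a (n + 1)))
  rw [e.symm_apply_apply, r1 n _ (Subgroup.subset_closure ⟨n + 1, by omega, Or.inl rfl⟩)] at h2
  exact a_ne _ h2

theorem fox {G : Type} [Group G] {p q : G} {χ : G → Bool} (W : Wall q χ) (hp : p ∈ Inv χ)
    (hpo : ¬ IsOfFinOrder p) (x y : G → ZMod 2) (hx : (Function.support x).Finite)
    (hy : (Function.support y).Finite) (h : ∀ g, x g + x (g * p) = y g + y (g * q)) :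
    (∀ g, x g = 0) ∧ ∀ g, y g = 0 := by
  classical
  have two : ∀ z : ZMod 2, z + z = 0 := by decide
  have hy0 : ∀ g, y g = 0 := by
    intro g0
    obtain ⟨t, rfl⟩ : ∃ t, g0 = t * q := ⟨g0 * q⁻¹, by simp⟩
    let c : G → ZMod 2 := fun g => if χ (t⁻¹ * g) then 1 else 0
    have fin : ∀ (z : G → ZMod 2) (s : G), (Function.support z).Finite →
        (Function.support fun g => z (g * s)).Finite := fun z s hz =>
      hz.preimage (mul_left_injective s).injOn
    have finc : ∀ (d z : G → ZMod 2), (Function.support z).Finite →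
        (Function.support fun g => d g * z g).Finite := fun d z hz =>
      hz.subset (Function.support_mul_subset_right d z)
    have e1 : ∑ᶠ g, c g * x (g * p) = ∑ᶠ g, c g * x g := by
      rw [← finsum_comp_equiv (Equiv.mulRight p) (f := fun g => c g * x g)]
      refine finsum_congr fun g => ?_
      simp only [c, Equiv.coe_mulRight]
      rw [← mul_assoc, hp]
    have e2 : ∑ᶠ g, c g * y (g * q) = ∑ᶠ g, c g * y g + y (t * q) := by
      have e4 : y (t * q) = ∑ᶠ g, (if g = t then 1 else 0) * y (g * q) := by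
        rw [finsum_eq_single _ t (fun g hg => by simp [hg])]; simp
      rw [← finsum_comp_equiv (Equiv.mulRight q) (f := fun g => c g * y g), e4]
      simp only [Equiv.coe_mulRight]
      rw [← finsum_add_distrib (finc (fun g => c (g * q)) _ (fin _ _ hy))
          (finc _ _ (fin _ _ hy))]
      refine finsum_congr fun g => ?_
      simp only [c]
      by_cases hg : g = t
      · subst hg
        simp [W.h0, W.h1, two]
      · rw [← mul_assoc, W.hb _ fun h3 => hg (inv_mul_eq_one.1 h3).symm, if_neg hg]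
        simp
    have e3 : ∑ᶠ g, c g * (x g + x (g * p)) = ∑ᶠ g, c g * (y g + y (g * q)) :=
      finsum_congr fun g => by rw [h]
    simp only [mul_add] at e3
    rw [finsum_add_distrib (finc _ _ hx) (finc _ _ (fin _ _ hx)),
      finsum_add_distrib (finc _ _ hy) (finc _ _ (fin _ _ hy)), e1, e2, two, ← add_assoc, two,
      zero_add] at e3
    exact e3.symm
  refine ⟨fun g => ?_, hy0⟩
  by_contra hg
  have h1 : ∀ n : ℕ, x (g * p ^ n) = x g := by
    intro n
    induction n with
    | zero => simp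
    | succ n ih =>
      have := h (g * p ^ n)
      rw [hy0, hy0, add_zero, ih, mul_assoc, ← pow_succ] at this
      have h2 := two (x g)
      exact (add_left_cancel (this.trans h2.symm))
  refine Set.infinite_of_injective_forall_mem (f := fun n : ℕ => g * p ^ n)
    ((mul_right_injective g).comp (injective_pow_iff_not_isOfFinOrder.2 hpo)) (fun n => ?_) hx
  rw [Function.mem_support, h1]; exact hg

theorem inv_all (f : Γ → ZMod 2) (hf : ∀ s, (Function.support fun g => f (g * s) + f g).Finite)
    (h0 : a 0 ∈ Inv f) (g : Γ) : f g = f 1 := by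
  have two : ∀ z w : ZMod 2, z + w = 0 → z = w := by decide
  have step : ∀ n, a n ∈ Inv f → a (n + 1) ∈ Inv f ∧ b n ∈ Inv f := by
    intro n hn
    obtain ⟨χ, W, ha, -⟩ := exists_wall n
    obtain ⟨h1, h2⟩ := fox W (ha (n + 1) (by omega)) (tf _ (a_ne _))
      (fun g => f (g * (a (n + 1))⁻¹ ^ 2 * a (n + 1)) + f (g * (a (n + 1))⁻¹ ^ 2))
      (fun g => f (g * b n) + f g) ((hf _).preimage (mul_left_injective _).injOn) (hf _) (by
        intro g
        have h3 := hn (g * (a (n + 1))⁻¹ ^ 2)
        have e1 : g * (a (n + 1))⁻¹ ^ 2 * a n = g * b n * b n := by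
          conv_lhs => rw [rel n]
          simp [sq, mul_assoc]
        have e2 : g * a (n + 1) * (a (n + 1))⁻¹ ^ 2 * a (n + 1) = g := by group
        have e3 : g * a (n + 1) * (a (n + 1))⁻¹ ^ 2 = g * (a (n + 1))⁻¹ ^ 2 * a (n + 1) := by group
        rw [e1] at h3
        rw [e2, e3, h3]
        generalize f (g * (a (n + 1))⁻¹ ^ 2 * a (n + 1)) = u
        generalize f (g * (a (n + 1))⁻¹ ^ 2) = v
        generalize f (g * b n) = w
        generalize f g = z
        revert u v w z
        decide)
    refine ⟨fun g => two _ _ ?_, fun g => two _ _ (h2 g)⟩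
    have := h1 (g * a (n + 1) ^ 2)
    simpa [mul_assoc] using this
  have ha : ∀ n, a n ∈ Inv f := fun n => Nat.rec h0 (fun n ih => (step n ih).1) n
  have := gen (Inv f) 0 (fun m _ => ha m) (fun m => (step m (ha m)).2) g 1
  simpa using this

theorem ai_countable : (AI Γ).Countable := by
  classical
  have hmem : ∀ (A : Set Γ) (s g : Γ), g * s ∈ (fun x => x * s) '' A ↔ g ∈ A := fun A s g =>
    (mul_left_injective s).mem_set_image
  let ind : Set Γ → Γ → ZMod 2 := fun A g => if g ∈ A then 1 else 0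
  have hfin : ∀ A ∈ AI Γ, ∀ s, (Function.support fun g => ind A (g * s) + ind A g).Finite := by
    intro A hA s
    refine ((hA s).preimage (mul_left_injective s).injOn).subset fun g hg => ?_
    simp only [Set.mem_preimage, Set.mem_symmDiff, hmem]
    simp only [Function.mem_support, ind] at hg
    by_cases h1 : g * s ∈ A <;> by_cases h2 : g ∈ A <;> simp_all
    exact hg rfl
  let Φ : AI Γ → {S : Set Γ // S.Finite} × ZMod 2 := fun A =>
    (⟨_, hfin A.1 A.2 (a 0)⟩, ind A.1 1)
  have : Countable {S : Set Γ // S.Finite} := Set.Countable.ofPred_finite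
  have hinj : Function.Injective Φ := by
    intro A B hAB
    have h1 : (Function.support fun g => ind A.1 (g * a 0) + ind A.1 g) =
        Function.support fun g => ind B.1 (g * a 0) + ind B.1 g :=
      congrArg (fun p => p.1.1) hAB
    have h2 : ind A.1 1 = ind B.1 1 := congrArg Prod.snd hAB
    have h3 := inv_all (fun g => ind A.1 g + ind B.1 g) (fun s =>
      ((hfin _ A.2 s).union (hfin _ B.2 s)).subset fun g hg => by
        simp only [Function.mem_support, Set.mem_union] at hg ⊢
        revert hg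
        generalize ind A.1 (g * s) = u
        generalize ind A.1 g = v
        generalize ind B.1 (g * s) = w
        generalize ind B.1 g = z
        revert u v w z
        decide) (fun g => by
        have h4 := Set.ext_iff.1 h1 g
        simp only [Function.mem_support] at h4
        show ind A.1 (g * a 0) + ind B.1 (g * a 0) = ind A.1 g + ind B.1 g
        revert h4
        generalize ind A.1 (g * a 0) = u
        generalize ind A.1 g = v
        generalize ind B.1 (g * a 0) = w
        generalize ind B.1 g = z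
        revert u v w z
        decide)
    refine Subtype.ext (Set.ext fun g => ?_)
    have h4 := h3 g
    rw [h2] at h4
    have h5 : ind A.1 g = ind B.1 g := by
      revert h4
      generalize ind A.1 g = v
      generalize ind B.1 g = z
      generalize ind B.1 1 = w
      revert v z w
      decide
    simp only [ind] at h5
    by_cases e1 : g ∈ A.1 <;> by_cases e2 : g ∈ B.1 <;> simp_all
  exact hinj.countable

theorem met : MetrizablyEnded Γ := by
  have : Countable (AI Γ) := ai_countable
  exact Quot.mk_surjective.countable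

end Pool.Agent.H.MP_879d44_al
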